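import Pool.Agent.W495.TA.Stms

set_option autoImplicit false
set_option linter.unusedSectionVars false

/-!
Project TA (MP_950c68_ag): the part S_flip (combinatorics of signs).
-/

namespace Pool.Agent.W11.TA.Flip

open Pool.Agent.W495.TA

section

variable {G X : Type} [Group G] [Fintype G] [Fintype X] [MulAction G X] {c : G}

lemma reindex (F : X → ℤ) (g : G) : ∑ x, F (g • x) = ∑ x, F x :=
  Equiv.sum_comp (MulAction.toPerm g) F

/-- the character of a semi-invariant sign function -/
lemma chi_exists {s : X → ℤ} (hs : IsSign c s) (hsemi : Semi G s) (x0 : X) :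
    ∃ chi : G → ℤ, (∀ (g : G) (x : X), s (g • x) = chi g * s x) ∧
      (∀ g, chi g = 1 ∨ chi g = -1) ∧ (∀ g h, chi (g * h) = chi g * chi h) ∧ chi 1 = 1 ∧ chi c = -1 := by
  have hsq : s x0 * s x0 = 1 := by
    rcases hs.sign x0 with h | h <;> rw [h] <;> norm_num
  have key : ∀ (g : G) (x : X), s (g • x) = (s (g • x0) * s x0) * s x := by
    intro g x
    rcases hsemi g with h | h
    · rw [h x, h x0, hsq, one_mul]
    · rw [h x, h x0, neg_mul, hsq]
      ring
  refine ⟨fun g => s (g • x0) * s x0, key, ?_, ?_, ?_, ?_⟩
  · intro g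
    rcases hs.sign (g • x0) with h | h <;> rcases hs.sign x0 with h' | h' <;> simp [h, h']
  · intro g h
    show s ((g * h) • x0) * s x0 = (s (g • x0) * s x0) * (s (h • x0) * s x0)
    rw [mul_smul, key g (h • x0)]
    ring
  · show s ((1 : G) • x0) * s x0 = 1
    rw [one_smul, hsq]
  · show s (c • x0) * s x0 = -1
    rw [hs.odd, neg_mul, hsq]

open Classical in
lemma two_M (hS : Setting G X c) {s ε : X → ℤ} (hs : IsSign c s) (he : IsSign c ε) (h : G) :
    2 * ∑ x, (if s x = 1 then ε (h • x) else 0) = ∑ x, s x * ε (h • x) := by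
  have h1 : ∑ x, (if s x = 1 then ε (h • x) else 0) =
      ∑ x : X, (if s x = -1 then -ε (h • x) else 0) := by
    rw [← reindex (fun x => if s x = 1 then ε (h • x) else 0) c]
    apply Finset.sum_congr rfl
    intro x _
    have e1 : h • c • x = c • h • x := by
      rw [← mul_smul, ← mul_smul, hS.comm]
    have e2 : (s (c • x) = 1) ↔ (s x = -1) := by
      rw [hs.odd]
      constructor <;> intro h <;> linarith
    simp only [e1, he.odd, e2]
  rw [two_mul]
  nth_rewrite 2 [h1]
  rw [← Finset.sum_add_distrib]
  apply Finset.sum_congr rfl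
  intro x _
  rcases hs.sign x with h2 | h2 <;> simp [h2]

open Classical in
lemma M_chi (hS : Setting G X c) {s ε : X → ℤ} (hs : IsSign c s) (he : IsSign c ε) {chi : G → ℤ}
    (h1 : ∀ g x, s (g • x) = chi g * s x) (h2 : ∀ g, chi g = 1 ∨ chi g = -1) (g : G) :
    ∑ x, (if s x = 1 then ε (g • x) else 0) = chi g * ∑ x, (if s x = 1 then ε x else 0) := by
  have e1 := two_M hS hs he g
  have e2 := two_M hS hs he 1
  simp only [one_smul] at e2
  have e3 : ∑ x, s x * ε (g • x) = chi g * ∑ x, s x * ε x := by
    rw [← reindex (fun x => s x * ε x) g, Finset.mul_sum]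
    apply Finset.sum_congr rfl
    intro x _
    rw [h1 g x]
    have : chi g * chi g = 1 := by
      rcases h2 g with h | h <;> rw [h] <;> norm_num
    calc s x * ε (g • x) = (chi g * chi g) * (s x * ε (g • x)) := by rw [this, one_mul]
      _ = _ := by ring
  rw [e3, ← e2] at e1
  linarith

open Classical in
/-- the relation: N(1) times the sum of the character over D vanishes -/
lemma relation (hS : Setting G X c) (D : Subgroup G) {s ε : X → ℤ} (hs : IsSign c s)
    (he : IsSign c ε) {chi : G → ℤ}
    (h1 : ∀ g x, s (g • x) = chi g * s x) (h2 : ∀ g, chi g = 1 ∨ chi g = -1)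
    (hrel : ∀ g, ∑ x, s x * nf D ε x g = 0) :
    (∑ x, (if s x = 1 then ε x else 0)) * (∑ d : G, if d ∈ D then chi d else 0) = 0 := by
  have h0 := hrel 1
  have e1 : ∑ x, s x * nf D ε x 1 = ∑ d : G, if d ∈ D then (∑ x, s x * ε (d • x)) else 0 := by
    unfold nf
    simp only [one_smul, Finset.mul_sum]
    rw [Finset.sum_comm]
    apply Finset.sum_congr rfl
    intro d _
    by_cases hd : d ∈ D
    · simp [hd]
    · simp [hd]
  rw [e1] at h0
  have e2 : ∀ d : G, (if d ∈ D then (∑ x, s x * ε (d • x)) else 0) =
      2 * ((∑ x, (if s x = 1 then ε x else 0)) * (if d ∈ D then chi d else 0)) := by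
    intro d
    by_cases hd : d ∈ D
    · simp only [hd, if_true]
      rw [← two_M hS hs he d, M_chi hS hs he h1 h2 d]
      ring
    · simp [hd]
  rw [Finset.sum_congr rfl (fun d _ => e2 d), ← Finset.mul_sum, ← Finset.mul_sum] at h0
  linarith

/-- the final step -/
lemma fin (hS : Setting G X c) (D : Subgroup G) {s ε ε' : X → ℤ} (hs : IsSign c s)
    (hsemi : Semi G s) (he' : IsSign c ε') (hnf : ∀ x, nf D ε' x = nf D ε x) (x0 : X) (m : ℤ)
    (hm : (∑ x, (if s x = 1 then ε' x else 0)) = m)
    (hcard : Fintype.card X + 2 * m.natAbs = 8 ∨ Fintype.card X + 2 * m.natAbs = 12) :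
    ∃ (ε' : X → ℤ) (r : ℕ) (u : ℤ), IsSign c ε' ∧ (∀ x, nf D ε' x = nf D ε x) ∧
      (Fintype.card X + 2 * r = 8 ∨ Fintype.card X + 2 * r = 12) ∧ (u = 1 ∨ u = -1) ∧
      Bal (G := G) ε' s r u := by
  classical
  obtain ⟨chi, h1, h2, _, _, _⟩ := chi_exists hs hsemi x0
  refine ⟨ε', m.natAbs, if m ≤ 0 then 1 else -1, he', hnf, hcard, ?_, ?_⟩
  · by_cases h : m ≤ 0
    · left; simp [h]
    · right; simp [h]
  · intro g x₀ hx₀
    have e1 := M_chi hS hs he' h1 h2 g
    have e2 : ((m.natAbs : ℕ) : ℤ) * (if m ≤ 0 then 1 else -1) = -m := by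
      by_cases h : m ≤ 0
      · simp only [h, if_true, mul_one]
        omega
      · simp only [h, if_false]
        omega
    rw [e2, h1 g x₀, hx₀, mul_one]
    have e3 : (∑ x, if s x = 1 then ε' (g • x) else 0) = chi g * m := by
      rw [← hm]
      convert e1
    rw [e3]
    ring

open Classical in
/-- counts -/
lemma counts {s ε : X → ℤ} (hs : IsSign c s) (he : IsSign c ε) :
    ∃ a b : ℕ, (∑ x : X, (if s x = 1 then ε x else 0)) = (a : ℤ) - b ∧
      Fintype.card X = 2 * (a + b) ∧
      a = (Finset.univ.filter (fun x => s x = 1 ∧ ε x = 1)).card ∧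
      b = (Finset.univ.filter (fun x => s x = 1 ∧ ε x = -1)).card := by
  refine ⟨_, _, ?_, ?_, rfl, rfl⟩
  · rw [Finset.card_filter, Finset.card_filter]
    push_cast
    rw [← Finset.sum_sub_distrib]
    apply Finset.sum_congr rfl
    intro x _
    rcases hs.sign x with h | h <;> rcases he.sign x with h' | h' <;> simp [h, h']
  · have e0 : Fintype.card X = ∑ x : X, 1 := by simp
    have e1 : (∑ x : X, (if s x = 1 then 1 else 0 : ℤ)) =
        ∑ x : X, (if s x = -1 then 1 else 0 : ℤ) := by
      rw [← reindex (fun x => (if s x = 1 then 1 else 0 : ℤ)) c]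
      apply Finset.sum_congr rfl
      intro x _
      have e2 : (s (c • x) = 1) ↔ (s x = -1) := by
        rw [hs.odd]
        constructor <;> intro h <;> linarith
      simp only [e2]
    have e3 : (Fintype.card X : ℤ) = 2 * ∑ x : X, (if s x = 1 then 1 else 0 : ℤ) := by
      rw [two_mul]
      nth_rewrite 2 [e1]
      rw [← Finset.sum_add_distrib, e0]
      push_cast
      apply Finset.sum_congr rfl
      intro x _
      rcases hs.sign x with h | h <;> simp [h]
    have e4 : (∑ x : X, (if s x = 1 then 1 else 0 : ℤ)) =
        (((Finset.univ.filter (fun x => s x = 1 ∧ ε x = 1)).card : ℕ) : ℤ) +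
        (((Finset.univ.filter (fun x => s x = 1 ∧ ε x = -1)).card : ℕ) : ℤ) := by
      rw [Finset.card_filter, Finset.card_filter]
      push_cast
      rw [← Finset.sum_add_distrib]
      apply Finset.sum_congr rfl
      intro x _
      rcases hs.sign x with h | h <;> rcases he.sign x with h' | h' <;> simp [h, h']
    rw [e4] at e3
    exact_mod_cast e3

open Classical in
/-- if the sign function is a multiple of s on the points that matter, nf vanishes -/
lemma nf_zero_of (D : Subgroup G) {ε : X → ℤ} (h : ∀ y : X, nf D ε y 1 = 0) (x : X) :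
    nf D ε x = 0 := by
  funext g
  have := h (g • x)
  unfold nf at this ⊢
  simpa using this

lemma contra (hS : Setting G X c) (D : Subgroup G) {ε : X → ℤ}
    (hinj : Function.Injective (nf (X := X) D ε)) (x0 : X)
    (h : ∀ y : X, nf D ε y 1 = 0) : False := by
  have h1 : nf D ε (c • x0) = nf D ε x0 := by
    rw [nf_zero_of D h, nf_zero_of D h]
  exact hS.ne x0 (hinj h1)

open Classical in
/-- nf vanishes at selfconjugate points -/
lemma nf_selfconj (hS : Setting G X c) (D : Subgroup G) {ε : X → ℤ} (he : IsSign c ε) (y : X)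
    (hy : ∃ d ∈ D, d • y = c • y) : nf D ε y 1 = 0 := by
  obtain ⟨d0, hd0, hdy⟩ := hy
  unfold nf
  simp only [one_smul]
  have h1 : ∑ d : G, (if d ∈ D then ε (d • y) else 0) =
      ∑ d : G, (if d * d0 ∈ D then ε ((d * d0) • y) else 0) :=
    (Equiv.sum_comp (Equiv.mulRight d0) (fun d => if d ∈ D then ε (d • y) else 0)).symm
  have h2 : ∑ d : G, (if d * d0 ∈ D then ε ((d * d0) • y) else 0) =
      -∑ d : G, (if d ∈ D then ε (d • y) else 0) := by
    rw [← Finset.sum_neg_distrib]
    apply Finset.sum_congr rfl
    intro d _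
    have e1 : (d * d0) • y = c • d • y := by
      rw [mul_smul, hdy, ← mul_smul, ← mul_smul, hS.comm]
    have e2 : d * d0 ∈ D ↔ d ∈ D := D.mul_mem_cancel_right hd0
    simp only [e1, e2, he.odd]
    split_ifs <;> simp
  rw [h2] at h1
  linarith

open Classical in
/-- a fixed point: if the character is nontrivial on D and the number of points with s = 1 is odd,
some point with s = 1 is selfconjugate -/
lemma exists_selfconj (hS : Setting G X c) (D : Subgroup G) {s : X → ℤ} {chi : G → ℤ}
    (h1 : ∀ g x, s (g • x) = chi g * s x)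
    (h3 : ∀ g h, chi (g * h) = chi g * chi h) (h4 : chi 1 = 1) (h5 : chi c = -1)
    (d0 : G) (hd0 : d0 ∈ D) (hchi : chi d0 = -1)
    (hodd : Odd (Fintype.card {x : X // s x = 1})) :
    ∃ x : X, s x = 1 ∧ ∃ d ∈ D, d • x = c • x := by
  have hpow : ∀ (g : G) (n : ℕ), chi (g ^ n) = chi g ^ n := by
    intro g n
    induction n with
    | zero => simp [h4]
    | succ n ih => rw [pow_succ, h3, ih, pow_succ]
  obtain ⟨k, m, hm, hkm⟩ := Nat.exists_eq_two_pow_mul_odd (orderOf_pos d0).ne'
  set e : G := d0 ^ m with he
  have heD : e ∈ D := D.pow_mem hd0 m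
  have hchie : chi e = -1 := by
    rw [he, hpow, hchi]
    exact hm.neg_one_pow
  have hek : e ^ (2 ^ k) = 1 := by
    rw [he, ← pow_mul, mul_comm, ← hkm, pow_orderOf_eq_one]
  have hcomm : Commute c e := hS.comm e
  have hck : (c * e) ^ (2 ^ (k + 1)) = 1 := by
    rw [hcomm.mul_pow]
    have a1 : c ^ (2 ^ (k+1)) = 1 := by
      rw [pow_succ', pow_mul, pow_two, hS.sq, one_pow]
    have a2 : e ^ (2 ^ (k+1)) = 1 := by
      rw [pow_succ, pow_mul, hek, one_pow]
    rw [a1, a2, one_mul]
  have hmap : ∀ x : {x : X // s x = 1}, s ((c * e) • x.1) = 1 := by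
    intro x
    rw [h1, h3, h5, hchie, x.2]
    norm_num
  let f : Function.End {x : X // s x = 1} := fun x => ⟨(c * e) • x.1, hmap x⟩
  have hf : ∀ (n : ℕ) (x : {x : X // s x = 1}), (((f ^ n) x : {x : X // s x = 1}) : X) =
      (c * e) ^ n • x.1 := by
    intro n
    induction n with
    | zero =>
      intro x
      rw [pow_zero, pow_zero, one_smul]
      rfl
    | succ n ih =>
      intro x
      have : (f ^ (n+1)) x = f ((f ^ n) x) := by
        rw [pow_succ']
        rfl
      rw [this]
      show (c * e) • (((f ^ n) x : {x : X // s x = 1}) : X) = _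
      rw [ih x, ← mul_smul, pow_succ']
  have hf1 : f ^ 2 ^ (k+1) = 1 := by
    funext x
    apply Subtype.ext
    rw [hf, hck, one_smul]
    rfl
  have : Fact (Nat.Prime 2) := ⟨Nat.prime_two⟩
  have hmod := Equiv.Perm.card_fixedPoints_modEq (f := f) (p := 2) (n := k+1) hf1
  have hne : Fintype.card f.fixedPoints ≠ 0 := by
    intro h0
    rw [h0] at hmod
    have : Fintype.card {x : X // s x = 1} % 2 = 0 := hmod
    rw [Nat.odd_iff] at hodd
    omega
  obtain ⟨⟨x, hx⟩⟩ := Fintype.card_pos_iff.mp (Nat.pos_of_ne_zero hne)
  refine ⟨x.1, x.2, e, heD, ?_⟩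
  have hx2 : f x = x := hx
  have hx3 : (c * e) • x.1 = x.1 := congrArg Subtype.val hx2
  calc e • x.1 = c • (c * e) • x.1 := by
        rw [← mul_smul, ← mul_assoc, hS.sq, one_mul]
    _ = c • x.1 := by rw [hx3]

open Classical in
/-- the sign function with the signs at x1 and c x1 changed -/
noncomputable def flp (c : G) (ε : X → ℤ) (x1 : X) : X → ℤ :=
  fun x => if x = x1 ∨ x = c • x1 then -ε x else ε x

lemma flp_sign (hS : Setting G X c) {ε : X → ℤ} (he : IsSign c ε) (x1 : X) :
    IsSign c (flp c ε x1) := by
  classical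
  constructor
  · intro x
    unfold flp
    rcases he.sign x with h | h <;> split_ifs <;> simp [h]
  · intro x
    unfold flp
    have hcc : ∀ y : X, c • c • y = y := by
      intro y
      rw [← mul_smul, hS.sq, one_smul]
    have e1 : (c • x = x1 ∨ c • x = c • x1) ↔ (x = x1 ∨ x = c • x1) := by
      constructor
      · rintro (h | h)
        · right
          rw [← h, hcc]
        · left
          have := congrArg (fun z => c • z) h
          simpa [hcc] using this
      · rintro (h | h)
        · right
          rw [h]
        · left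
          rw [h, hcc]
    simp only [e1, he.odd]
    split_ifs <;> simp

open Classical in
lemma flp_nf (hS : Setting G X c) (D : Subgroup G) {ε : X → ℤ} (he : IsSign c ε) (x1 : X)
    (hx1 : ∃ d ∈ D, d • x1 = c • x1) (x : X) : nf D (flp c ε x1) x = nf D ε x := by
  have hcc : ∀ y : X, c • c • y = y := by
    intro y
    rw [← mul_smul, hS.sq, one_smul]
  funext g
  have red : ∀ η : X → ℤ, nf D η x g = nf D η (g • x) 1 := by
    intro η
    unfold nf
    simp
  rw [red, red]
  by_cases hy : ∃ d ∈ D, d • (g • x) = c • (g • x)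
  · rw [nf_selfconj hS D he _ hy, nf_selfconj hS D (flp_sign hS he x1) _ hy]
  · unfold nf
    apply Finset.sum_congr rfl
    intro d _
    by_cases hd : d ∈ D
    · simp only [hd, if_true, one_smul]
      unfold flp
      rw [if_neg]
      intro hcase
      apply hy
      obtain ⟨d1, hd1, hdx⟩ := hx1
      -- d g x is selfconjugate
      have hself : d1 • (d • g • x) = c • (d • g • x) := by
        rcases hcase with h | h
        · rw [h, hdx]
        · rw [h, ← mul_smul, ← hS.comm, mul_smul, hdx]
      refine ⟨d⁻¹ * d1 * d, D.mul_mem (D.mul_mem (D.inv_mem hd) hd1) hd, ?_⟩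
      rw [mul_smul, mul_smul, hself, ← mul_smul, ← hS.comm, mul_smul, inv_smul_smul]
    · simp [hd]

open Classical in
/-- the sum changes by two -/
lemma flp_sum (_hS : Setting G X c) {s ε : X → ℤ} (hs : IsSign c s) (x1 : X) (hx1 : s x1 = 1) :
    (∑ x, (if s x = 1 then flp c ε x1 x else 0)) =
      (∑ x, (if s x = 1 then ε x else 0)) - 2 * ε x1 := by
  have e1 : ∀ x : X, (if s x = 1 then flp c ε x1 x else 0) =
      (if s x = 1 then ε x else 0) - (if x = x1 then 2 * ε x1 else 0) := by
    intro x
    by_cases hx : x = x1
    · subst hx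
      simp [hx1, flp]
      ring
    · by_cases h : s x = 1
      · have : x ≠ c • x1 := by
          intro hc
          rw [hc, hs.odd, hx1] at h
          norm_num at h
        simp [h, hx, flp, this]
      · simp [h, hx]
  rw [Finset.sum_congr rfl (fun x _ => e1 x), Finset.sum_sub_distrib]
  simp

end

theorem t_flip : S_flip := by
  intro G X _ _ _ _ c hS D ε he hcard hinj s hs hsemi hrel
  classical
  rcases isEmpty_or_nonempty X with hX | hX
  · refine ⟨ε, 4, 1, he, fun x => rfl, ?_, Or.inl rfl, ?_⟩
    · left
      simp [Fintype.card_eq_zero]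
    · intro g x₀
      exact hX.elim x₀
  obtain ⟨x0⟩ := hX
  obtain ⟨chi, h1, h2, h3, h4, h5⟩ := chi_exists hs hsemi x0
  have hR := relation hS D hs he h1 h2 hrel
  obtain ⟨a, b, hm, hc, ha, hb⟩ := counts (c := c) hs he
  -- if the sum of chi over D vanishes and eps = sg * s off the selfconjugate points: contradiction
  have K : ∀ sg : ℤ, (∑ d : G, if d ∈ D then chi d else 0) = 0 →
      (∀ y : X, (¬ ∃ d ∈ D, d • y = c • y) → ε y = sg * s y) → False := by
    intro sg hK hy
    apply contra hS D hinj x0
    intro y
    by_cases hself : ∃ d ∈ D, d • y = c • y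
    · exact nf_selfconj hS D he y hself
    · unfold nf
      simp only [one_smul]
      have : ∀ d : G, (if d ∈ D then ε (d • y) else 0) =
          sg * s y * (if d ∈ D then chi d else 0) := by
        intro d
        by_cases hd : d ∈ D
        · simp only [hd, if_true]
          rw [hy (d • y), h1]
          · ring
          · rintro ⟨d1, hd1, h⟩
            apply hself
            refine ⟨d⁻¹ * d1 * d, D.mul_mem (D.mul_mem (D.inv_mem hd) hd1) hd, ?_⟩
            rw [mul_smul, mul_smul, h, ← mul_smul, ← hS.comm, mul_smul, inv_smul_smul]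
        · simp [hd]
      rw [Finset.sum_congr rfl (fun d _ => this d), ← Finset.mul_sum, hK, mul_zero]
  have oddext : ∀ sg : ℤ, ∀ y : X, (s y = 1 → ε y = sg) → (s (c • y) = 1 → ε (c • y) = sg) →
      ε y = sg * s y := by
    intro sg y h h'
    rcases hs.sign y with hy | hy
    · rw [hy, h hy, mul_one]
    · have := h' (by rw [hs.odd, hy]; norm_num)
      rw [he.odd] at this
      rw [hy]
      linarith
  have hab : 1 ≤ a + b := by
    have : 0 < Fintype.card X := Fintype.card_pos_iff.mpr ⟨x0⟩
    omega
  -- (1)
  have hb1 : b ≠ 0 := by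
    intro hb0
    rw [hb0] at hb
    have hK0 : (∑ d : G, if d ∈ D then chi d else 0) = 0 := by
      rcases mul_eq_zero.mp hR with h | h
      · rw [hm] at h
        omega
      · exact h
    have hall : ∀ y : X, s y = 1 → ε y = 1 := by
      intro y hy
      rcases he.sign y with h | h
      · exact h
      · exfalso
        have : y ∈ Finset.univ.filter (fun x => s x = 1 ∧ ε x = -1) := by simp [hy, h]
        rw [Finset.card_eq_zero.mp hb.symm] at this
        exact absurd this (Finset.notMem_empty _)
    exact K 1 hK0 (fun y _ => oddext 1 y (hall y) (hall (c • y)))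
  have ha1 : a ≠ 0 := by
    intro ha0
    rw [ha0] at ha
    have hK0 : (∑ d : G, if d ∈ D then chi d else 0) = 0 := by
      rcases mul_eq_zero.mp hR with h | h
      · rw [hm] at h
        omega
      · exact h
    have hall : ∀ y : X, s y = 1 → ε y = -1 := by
      intro y hy
      rcases he.sign y with h | h
      · exfalso
        have : y ∈ Finset.univ.filter (fun x => s x = 1 ∧ ε x = 1) := by simp [hy, h]
        rw [Finset.card_eq_zero.mp ha.symm] at this
        exact absurd this (Finset.notMem_empty _)
      · exact h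
    exact K (-1) hK0 (fun y _ => oddext (-1) y (hall y) (hall (c • y)))
  -- (3) the case a = b = 1
  have hab2 : ¬ (a = 1 ∧ b = 1) := by
    rintro ⟨ha', hb'⟩
    rw [ha'] at ha
    rw [hb'] at hb
    obtain ⟨x, hx⟩ := Finset.card_eq_one.mp ha.symm
    obtain ⟨y, hy⟩ := Finset.card_eq_one.mp hb.symm
    have hx' : x ∈ Finset.univ.filter (fun x => s x = 1 ∧ ε x = 1) := by rw [hx]; simp
    have hy' : y ∈ Finset.univ.filter (fun x => s x = 1 ∧ ε x = -1) := by rw [hy]; simp
    simp only [Finset.mem_filter, Finset.mem_univ, true_and] at hx' hy'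
    have hxy : x ≠ y := by
      intro h
      rw [h] at hx'
      have := hx'.2
      rw [hy'.2] at this
      norm_num at this
    -- s = 1 exactly at x, y
    have hP : ∀ z : X, s z = 1 → z = x ∨ z = y := by
      intro z hz
      rcases he.sign z with h | h
      · left
        have : z ∈ Finset.univ.filter (fun x => s x = 1 ∧ ε x = 1) := by simp [hz, h]
        rw [hx] at this
        simpa using this
      · right
        have : z ∈ Finset.univ.filter (fun x => s x = 1 ∧ ε x = -1) := by simp [hz, h]
        rw [hy] at this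
        simpa using this
    have hsum : ∀ h : G, ε (h • x) + ε (h • y) = 0 := by
      intro h
      have e1 := M_chi hS hs he h1 h2 h
      rw [hm, ha', hb'] at e1
      have e2 : (∑ z, if s z = 1 then ε (h • z) else 0) = ε (h • x) + ε (h • y) := by
        have e3 : ∀ z : X, (if s z = 1 then ε (h • z) else 0) =
            (if z = x then ε (h • x) else 0) + (if z = y then ε (h • y) else 0) := by
          intro z
          by_cases hz : s z = 1
          · rcases hP z hz with h' | h'
            · subst h'
              simp [hz, hxy]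
            · subst h'
              simp [hz, hxy.symm]
          · have n1 : z ≠ x := fun h' => hz (h' ▸ hx'.1)
            have n2 : z ≠ y := fun h' => hz (h' ▸ hy'.1)
            simp [hz, n1, n2]
        rw [Finset.sum_congr rfl (fun z _ => e3 z), Finset.sum_add_distrib]
        simp
      rw [e2] at e1
      rw [e1]
      norm_num
    have hnf : nf D ε x = nf D ε (c • y) := by
      funext g
      unfold nf
      apply Finset.sum_congr rfl
      intro d _
      by_cases hd : d ∈ D
      · simp only [hd, if_true]
        have e1 : d • g • c • y = c • d • g • y := by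
          rw [← mul_smul, ← mul_smul, ← mul_smul, ← mul_smul, mul_assoc c d g, hS.comm (d * g)]
        have e2 := hsum (d * g)
        rw [mul_smul, mul_smul] at e2
        rw [e1, he.odd]
        linarith
      · simp [hd]
    have hxc := hinj hnf
    have : s x = -s y := by rw [hxc, hs.odd]
    rw [hx'.1, hy'.1] at this
    norm_num at this
  -- the case |m| = 3
  by_cases h3m : a + b = 5 ∧ (a = 1 ∨ b = 1)
  · obtain ⟨hab5, hab1⟩ := h3m
    have hm0 : (∑ x : X, (if s x = 1 then ε x else 0)) ≠ 0 := by
      rw [hm]
      omega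
    have hK0 : (∑ d : G, if d ∈ D then chi d else 0) = 0 := by
      rcases mul_eq_zero.mp hR with h | h
      · exact absurd h hm0
      · exact h
    -- an element of D with chi = -1
    have hd0 : ∃ d0 ∈ D, chi d0 = -1 := by
      by_contra hcon
      push Not at hcon
      have : ∀ d : G, (if d ∈ D then chi d else 0) = if d ∈ D then 1 else 0 := by
        intro d
        by_cases hd : d ∈ D
        · simp only [hd, if_true]
          rcases h2 d with h | h
          · exact h
          · exact absurd h (hcon d hd)
        · simp [hd]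
      rw [Finset.sum_congr rfl (fun d _ => this d)] at hK0
      have h1mem : (1 : G) ∈ Finset.univ := Finset.mem_univ _
      have hle : (if (1 : G) ∈ D then (1:ℤ) else 0) ≤ ∑ d : G, (if d ∈ D then (1:ℤ) else 0) :=
        Finset.single_le_sum (f := fun d : G => if d ∈ D then (1:ℤ) else 0)
          (fun i _ => by positivity) h1mem
      rw [hK0] at hle
      simp [D.one_mem] at hle
    obtain ⟨d0, hd0D, hchi0⟩ := hd0
    have hcardP : Fintype.card {x : X // s x = 1} = a + b := by
      rw [Fintype.card_subtype]
      have : (Finset.univ.filter (fun x => s x = 1)) =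
          (Finset.univ.filter (fun x => s x = 1 ∧ ε x = 1)) ∪
          (Finset.univ.filter (fun x => s x = 1 ∧ ε x = -1)) := by
        ext z
        simp only [Finset.mem_filter, Finset.mem_univ, true_and, Finset.mem_union]
        constructor
        · intro hz
          rcases he.sign z with h | h
          · left; exact ⟨hz, h⟩
          · right; exact ⟨hz, h⟩
        · rintro (h | h)
          · exact h.1
          · exact h.1
      rw [this, Finset.card_union_of_disjoint, ← ha, ← hb]
      rw [Finset.disjoint_filter]
      intro z _ h h'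
      have := h.2
      rw [h'.2] at this
      norm_num at this
    obtain ⟨x1, hx1s, hx1self⟩ := exists_selfconj hS D h1 h3 h4 h5 d0 hd0D hchi0
      (by rw [hcardP, hab5]; decide)
    -- sg = sign of m
    have main : ∀ sg : ℤ, (sg = 1 ∨ sg = -1) →
        (∀ y z : X, s y = 1 → s z = 1 → ε y = -sg → ε z = -sg → y = z) →
        ∃ x : X, s x = 1 ∧ ε x = sg ∧ ∃ d ∈ D, d • x = c • x := by
      intro sg hsg huniq
      by_contra hcon
      push Not at hcon
      have hx1e : ε x1 = -sg := by
        rcases he.sign x1 with h | h <;> rcases hsg with h' | h'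
        · exfalso
          obtain ⟨d, hd, hdx⟩ := hx1self
          exact hcon x1 hx1s (by rw [h, h']) d hd hdx
        · rw [h, h']; norm_num
        · rw [h, h']
        · exfalso
          obtain ⟨d, hd, hdx⟩ := hx1self
          exact hcon x1 hx1s (by rw [h, h']) d hd hdx
      have hother : ∀ y : X, s y = 1 → (¬ ∃ d ∈ D, d • y = c • y) → ε y = sg := by
        intro y hy hns
        by_contra hne
        have hy2 : ε y = -sg := by
          rcases he.sign y with h | h <;> rcases hsg with h' | h'
          · exact absurd (by rw [h, h']) hne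
          · rw [h, h']; norm_num
          · rw [h, h']
          · exact absurd (by rw [h, h']) hne
        have := huniq y x1 hy hx1s hy2 hx1e
        rw [this] at hns
        exact hns hx1self
      refine K sg hK0 (fun y hns => oddext sg y (fun h => hother y h hns)
        (fun h => hother (c • y) h ?_))
      rintro ⟨d, hd, hdy⟩
      apply hns
      refine ⟨d, hd, ?_⟩
      have e1 : d • c • y = c • d • y := by
        rw [← mul_smul, ← mul_smul, hS.comm]
      rw [e1] at hdy
      have := congrArg (fun z => c • z) hdy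
      simpa [← mul_smul, ← mul_assoc, hS.sq] using this
    rcases hab1 with ha5 | hb5
    · -- a = 1, b = 4, m = -3, sg = -1
      have hb4 : b = 4 := by omega
      rw [ha5] at ha
      obtain ⟨w, hw⟩ := Finset.card_eq_one.mp ha.symm
      obtain ⟨x, hxs, hxe, hxself⟩ := main (-1) (Or.inr rfl) (by
        intro y z hy hz hey hez
        have my : y ∈ Finset.univ.filter (fun x => s x = 1 ∧ ε x = 1) := by
          simp [hy, hey]
        have mz : z ∈ Finset.univ.filter (fun x => s x = 1 ∧ ε x = 1) := by
          simp [hz, hez]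
        rw [hw] at my mz
        simp only [Finset.mem_singleton] at my mz
        rw [my, mz])
      refine fin hS D hs hsemi (flp_sign hS he x) (flp_nf hS D he x hxself) x0 (-1) ?_ ?_
      · have := flp_sum (ε := ε) hS hs x hxs
        rw [hm, ha5, hb4, hxe] at this
        rw [this]
        norm_num
      · right
        rw [hc, hab5]
        decide
    · have ha4 : a = 4 := by omega
      rw [hb5] at hb
      obtain ⟨w, hw⟩ := Finset.card_eq_one.mp hb.symm
      obtain ⟨x, hxs, hxe, hxself⟩ := main 1 (Or.inl rfl) (by
        intro y z hy hz hey hez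
        have my : y ∈ Finset.univ.filter (fun x => s x = 1 ∧ ε x = -1) := by
          simp [hy, hey]
        have mz : z ∈ Finset.univ.filter (fun x => s x = 1 ∧ ε x = -1) := by
          simp [hz, hez]
        rw [hw] at my mz
        simp only [Finset.mem_singleton] at my mz
        rw [my, mz])
      refine fin hS D hs hsemi (flp_sign hS he x) (flp_nf hS D he x hxself) x0 1 ?_ ?_
      · have := flp_sum (ε := ε) hS hs x hxs
        rw [hm, hb5, ha4, hxe] at this
        rw [this]
        norm_num
      · right
        rw [hc, hab5]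
        decide
  · refine fin hS D hs hsemi he (fun x => rfl) x0 ((a : ℤ) - b) ?_ ?_
    · convert hm
    · rw [hc]
      omega

end Pool.Agent.W11.TA.Flip
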